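import Pool.Agent.X298.FC.Fam

/-!
# Bessel and Fourier–Jacobi periods over function fields: certificates from the places of small degree

Let `F` be a function field with constant field `𝔽_q`, `Y` the set of its places, `deg v` the degree of `v`, `π` as in the problem
and `R` the symplectic representation, `b_v(k)` the trace of the `k`-th power of the Satake (Langlands) parameter at `v` in `R` (on the
inertia invariants). Suppose that `L(π, R, s)` is a polynomial of degree `D` in `q^{-s}` with all zeros on the line `Re s = 1/2` (this is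
known for the tempered representations of the problem, by Grothendieck, Deligne and Lafforgue, apart from poles at the edge in special
cases): `L(π, R, s) = ∏_j (1 - ω_j q^{1/2 - s})`, `|ω_j| = 1`. The logarithmic derivative is the trace formula
`A_n := ∑_{deg v ∣ n} deg(v) b_v(n / deg v) = - q^{n/2} ∑_j ω_j^n`, `n ≥ 1`. Put

  `cert(N) = (D - 2 ∑_{1 ≤ n < N} (1 - n/N) q^{-n/2} Re A_n) / N`,

a finite sum which involves only the Satake parameters at the places of degree less than `N`; `N` may be much smaller than `D` (the size of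
`2 log_q D` is the natural one), while the coefficients of the `L`-function are only known from the places of degree up to `D / 2`. We show:

* the order of vanishing `m` at `s = 1/2` satisfies `m ≤ cert(N)` for every `N ≥ 1`, and
  `cert(N) ≤ m + N^{-2} ∑_{j} 4 / |1 - ω_j|²` (sum over `ω_j ≠ 1`); so `cert(N) → m`;
* `L(π, R, 1/2) ≠ 0` if and only if `cert(N) < 1` for some `N ≥ 1`; if `m` is even (sign `+1`), if and only if `cert(N) < 2` for
  some `N ≥ 1`;
* so, if the equivalence of (i) and (iii) of the problem holds for `π`, the period is nonzero on `π` if and only if the local conditions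
  hold and the inequality `cert(N) < 1` (`cert(N) < 2`) is true for some `N`;
* **whole families**: if `(π_i)` is a finite family with the same `D`, the quantity `cert` of the family, formed with the traces
  `∑_i b_{i,v}(k)` (traces of Hecke operators) and `|I| D`, is an upper bound for the number of the members with vanishing central value, and
  for twice this number if all orders are even; so, if the equivalence holds for the members of the family, the proportion of those for
  which the period vanishes although the local conditions hold is at most `cert(N) / (2 |I|)`, **for every `N`**.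
-/

set_option autoImplicit false

open Filter Topology

namespace Pool.Agent.Results.MP_86aa84_nt.FiniteCertificates

open Pool.Agent.X298.FC

/-- **Certificates for central values over function fields, for single forms and for families.** -/
theorem result {Y : Type} (deg : Y → ℕ) (hfin : ∀ n, 1 ≤ n → {v | deg v ∣ n}.Finite) (q D : ℕ) (hq : 0 < q) :
    (∀ (b : Y → ℕ → ℂ) (ω : Fin D → ℂ), (∀ j, ‖ω j‖ = 1) →
      (∀ n, 1 ≤ n → traceSum deg b n = -((Real.sqrt q : ℂ) ^ n * ∑ j, ω j ^ n)) →
      (∀ N, 1 ≤ N → (Nat.card {j // ω j = 1} : ℝ) ≤ cert q D deg b N ∧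
        cert q D deg b N ≤ Nat.card {j // ω j = 1} + (∑ j, 4 / ‖1 - ω j‖ ^ 2) / (N : ℝ) ^ 2) ∧
      Tendsto (fun N : ℕ => cert q D deg b N) atTop (𝓝 (Nat.card {j // ω j = 1} : ℝ)) ∧
      (∏ j, (1 - ω j) ≠ 0 ↔ ∃ N, 1 ≤ N ∧ cert q D deg b N < 1) ∧
      (Even (Nat.card {j // ω j = 1}) → (∏ j, (1 - ω j) ≠ 0 ↔ ∃ N, 1 ≤ N ∧ cert q D deg b N < 2)) ∧
      (∀ Hom Per : Prop, (Per ↔ Hom ∧ ∏ j, (1 - ω j) ≠ 0) →
        (Per ↔ Hom ∧ ∃ N, 1 ≤ N ∧ cert q D deg b N < 1) ∧
        (Even (Nat.card {j // ω j = 1}) → (Per ↔ Hom ∧ ∃ N, 1 ≤ N ∧ cert q D deg b N < 2)))) ∧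
    (∀ (I : Type) [Fintype I] (b : I → Y → ℕ → ℂ) (ω : I → Fin D → ℂ), (∀ i j, ‖ω i j‖ = 1) →
      (∀ i n, 1 ≤ n → traceSum deg (b i) n = -((Real.sqrt q : ℂ) ^ n * ∑ j, ω i j ^ n)) →
      ∀ N, 1 ≤ N →
        (Nat.card {i // ∏ j, (1 - ω i j) = 0} : ℝ) ≤
          cert q (Fintype.card I * D) deg (fun v k => ∑ i, b i v k) N ∧
        ((∀ i, Even (Nat.card {j // ω i j = 1})) → 2 * (Nat.card {i // ∏ j, (1 - ω i j) = 0} : ℝ) ≤
          cert q (Fintype.card I * D) deg (fun v k => ∑ i, b i v k) N)) := by
  refine ⟨fun b ω hω hA => ?_, fun I _ b ω hω hA N hN => family hq hfin hω hA hN⟩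
  obtain ⟨h1, h2⟩ := crit (deg := deg) (b := b) hq hω hA
  refine ⟨fun N hN => bounds hq hω hA hN, tends hq hω hA, h1, h2, fun Hom Per h => ?_⟩
  exact ⟨by rw [h, h1], fun hev => by rw [h, h2 hev]⟩

end Pool.Agent.Results.MP_86aa84_nt.FiniteCertificates
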